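import Pool.Agent.H228.HP.Main
import Pool.Agent.H228.HP.Bd2

/-!
# Hesse pencils through constant elliptic curves

Let `k` be a finite field with `q` elements, `q` congruent to `1` modulo three, of characteristic at
least five, and let `E_0 : y ^ 2 = x ^ 3 + a x + b` be an elliptic curve over `k` whose trace is divisible
by three (neither `E_0` nor its quadratic twist has a `k`-rational point of order three). The members of
the pencil of cubics generated by `E_0` and its Hessian are, in short Weierstrass form, the curves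
`E_s : y ^ 2 = x ^ 3 + a(s) x + b(s)` below, with discriminant that of `E_0` times `D(s) ^ 3`.
-/

set_option autoImplicit false
set_option linter.all false
set_option maxHeartbeats 4000000

open Polynomial FF Module Pool.Agent.W343.BSD Pool.Agent.W313.Gr

namespace Pool.Agent.Results.MP_48b749_nt.HessePencils

section defs

/-- The coefficient of `x` of `E_s`. -/
def coeffA {R : Type} [CommRing R] (a b s : R) : R :=
  a - 18 * b * s - 18 * a ^ 2 * s ^ 2 + 54 * a * b * s ^ 3 - 27 * (a ^ 3 + 9 * b ^ 2) * s ^ 4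

/-- The constant coefficient of `E_s`. -/
def coeffB {R : Type} [CommRing R] (a b s : R) : R :=
  b + 4 * a ^ 2 * s - 45 * a * b * s ^ 2 + 270 * b ^ 2 * s ^ 3 + 135 * a ^ 2 * b * s ^ 4 +
    (486 * a * b ^ 2 + 108 * a ^ 4) * s ^ 5 - (1458 * b ^ 3 + 243 * a ^ 3 * b) * s ^ 6

/-- The polynomial `D(s)` whose zeros are the singular members. -/
def sing {R : Type} [CommRing R] (a b s : R) : R :=
  1 + 18 * a * s ^ 2 - 108 * b * s ^ 3 - 27 * a ^ 2 * s ^ 4

/-- The coefficients over an extension `K` of `k`. -/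
def A {k K : Type} [Field k] [Field K] [Algebra k K] (a b : k) (s : K) : K :=
  coeffA (algebraMap k K a) (algebraMap k K b) s

def B {k K : Type} [Field k] [Field K] [Algebra k K] (a b : k) (s : K) : K :=
  coeffB (algebraMap k K a) (algebraMap k K b) s

def D {k K : Type} [Field k] [Field K] [Algebra k K] (a b : k) (s : K) : K :=
  sing (algebraMap k K a) (algebraMap k K b) s

/-- The number of elements of `k` minus the number of affine points of `y ^ 2 = x ^ 3 + a x + b`
over `k`, that is `q + 1 - |E_0(k)|`. -/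
noncomputable def constTrace (k : Type) [Field k] (a b : k) : ℤ :=
  (Nat.card k : ℤ) - Nat.card {P : k × k // P.2 ^ 2 = P.1 ^ 3 + a * P.1 + b}

/-- `E_0` is an elliptic curve and three divides its trace. -/
structure IsBase (k : Type) [Field k] (a b : k) : Prop where
  elliptic : 4 * a ^ 3 + 27 * b ^ 2 ≠ 0
  trace : (3 : ℤ) ∣ constTrace k a b

/-- `y ^ 2 = x ^ 3 + a x + b` is an elliptic curve with a non-constant `j`-invariant
`6912 a ^ 3 / (4 a ^ 3 + 27 b ^ 2)`. -/
def NonIsotrivial (k : Type) {K : Type} [Field k] [Field K] [Algebra k K] (a b : K) : Prop :=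
  4 * a ^ 3 + 27 * b ^ 2 ≠ 0 ∧
    ∀ c : k, 6912 * a ^ 3 / (4 * a ^ 3 + 27 * b ^ 2) ≠ algebraMap k K c

/-- The multiplicity of the factor `X ^ 2 + 1` in the reduction of `P` modulo three. -/
noncomputable def mult (P : ℤ[X]) : ℕ :=
  multiplicity (X ^ 2 + 1 : (ZMod 3)[X]) (P.map (Int.castRingHom (ZMod 3)))

open Classical in
/-- The sum of `3 ^ v₃(deg v)` over the zeros `v` of `f` (without multiplicities) of degree divisible
by four. -/
noncomputable def zeroSum (k : Type) {K : Type} [Field k] [Field K] [Algebra k K] (f : K) : ℕ :=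
  ∑ᶠ v : Place k K, if 0 < v.ord f ∧ 4 ∣ S.deg v then 3 ^ padicValNat 3 (S.deg v) else 0

/-- The order of vanishing of `L(T, E)` at `T = 1 / |k|` is zero and the value there is a unit at three:
if `L(T, E)` is `(1 - |k| T) ^ m G(T)` with `G` in `ℤ[T]` then `m = 0`, and `G(1 / |k|)` is not zero and its
`3`-adic valuation is zero; if `L(T, E)` is a polynomial with a zero of order exactly `r` then `r = 0`, and
the rank is zero if it is at most `r`. -/
def OrderZero (k : Type) {K : Type} [Field k] [Field K] [Algebra k K] (a b : K) : Prop :=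
  (∀ (m : ℕ) (G : ℤ[X]),
    S.Lfun k a b = (((1 - C (Nat.card k : ℤ) * X) ^ m * G : ℤ[X]) : PowerSeries ℤ) →
      m = 0 ∧ (G.map (Int.castRingHom ℚ)).eval ((Nat.card k : ℕ) : ℚ)⁻¹ ≠ 0 ∧
        padicValRat 3 ((G.map (Int.castRingHom ℚ)).eval ((Nat.card k : ℕ) : ℚ)⁻¹) = 0) ∧
    ∀ r : ℕ, HasOrder k a b r → r = 0 ∧ (rank a b ≤ r → rank a b = 0)

/-- `K` is the function field of a curve over `k`, `s` is not in `k`, the reduction modulo three of the
numerator of the zeta function is not divisible by `X ^ 2 + 1`, and no zero of `D(s)` has degree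
divisible by four. -/
structure Good (k K : Type) [Field k] [Field K] [Algebra k K] (a b : k) (s : K) : Prop where
  curve : IsCurveField k K
  nonconst : ∀ c : k, s ≠ algebraMap k K c
  numerator : ∀ P : ℤ[X], S.IsZetaNum k K P →
    ¬ (X ^ 2 + 1 : (ZMod 3)[X]) ∣ P.map (Int.castRingHom (ZMod 3))
  zeros : ∀ v : Place k K, 0 < v.ord (D a b s) → ¬ 4 ∣ S.deg v

/-- The place `w` of `L` lies over the place `v` of `K` with ramification index `e`. -/
def LiesOver {k K L : Type} [Field k] [Field K] [Algebra k K] [Field L] [Algebra k L] [Algebra K L]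
    (w : Place k L) (v : Place k K) (e : ℕ) : Prop :=
  0 < e ∧ ∀ f : K, w.ord (algebraMap K L f) = e * v.ord f

end defs

section proof

open Pool.Agent.H228.HP (Cst eA eB eD wI mulI)

theorem eA_eq {k K : Type} [Field k] [Field K] [Algebra k K] (a b : k) (s : K) :
    Pool.Agent.H228.HP.eA k a b s = A a b s := by
  unfold Pool.Agent.H228.HP.eA Pool.Agent.H228.HP.hA A coeffA
  ring

theorem eB_eq {k K : Type} [Field k] [Field K] [Algebra k K] (a b : k) (s : K) :
    Pool.Agent.H228.HP.eB k a b s = B a b s := by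
  unfold Pool.Agent.H228.HP.eB Pool.Agent.H228.HP.hB B coeffB
  ring

theorem eD_eq {k K : Type} [Field k] [Field K] [Algebra k K] (a b : k) (s : K) :
    Pool.Agent.H228.HP.eD k a b s = D a b s := by
  unfold Pool.Agent.H228.HP.eD Pool.Agent.H228.HP.hD D sing
  ring

theorem dvd_of_mod {k : Type} [Field k] (h : Nat.card k % 3 = 1) : 3 ∣ Nat.card k - 1 := by
  omega

theorem two_three {k : Type} [Field k] (h : (6 : k) ≠ 0) : (2 : k) ≠ 0 ∧ (3 : k) ≠ 0 :=
  ⟨fun e => h (by linear_combination 3 * e), fun e => h (by linear_combination 2 * e)⟩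

theorem cst {k : Type} [Field k] [Finite k] (h6 : (6 : k) ≠ 0) (hq : Nat.card k % 3 = 1) {a b : k}
    (h : IsBase k a b) : Cst k a b := by
  letI : Fintype k := Fintype.ofFinite k
  obtain ⟨h2, h3⟩ := two_three h6
  exact Pool.Agent.H228.HP.cst_of_tr h2 h3 (dvd_of_mod hq) h.elliptic h.trace

theorem zeroSum_eq {k K : Type} [Field k] [Field K] [Algebra k K] (f : K) :
    zeroSum k f = ∑ᶠ v : Place k K, wI k f v := by
  classical
  unfold zeroSum wI
  apply finsum_congr
  intro v
  congr

theorem bound {k K : Type} [Field k] [Finite k] [Field K] [Algebra k K] (h6 : (6 : k) ≠ 0)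
    (hq : Nat.card k % 3 = 1) {a b : k} (h : IsBase k a b) (hK : IsCurveField k K) {s : K}
    (hs : ∀ c : k, s ≠ algebraMap k K c) {P : ℤ[X]} (hP : S.IsZetaNum k K P) {m : ℕ}
    (hm : S.VanishesTo k (A a b s) (B a b s) m) :
    m ≤ 2 * mult P + zeroSum k (D a b s) := by
  haveI : FF.IsFF k K := ⟨hK.essFiniteType, hK.trdeg_eq_one⟩
  have hr : constDeg k K = 1 := Pool.Agent.TH958.T4.constDeg_eq_one hK.algClosed
  have htr := Pool.Agent.TH180.R2.transc hr hs
  rw [← eA_eq, ← eB_eq] at hm
  rw [zeroSum_eq, ← eD_eq]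
  exact Pool.Agent.H228.HP.bound (cst h6 hq h) (Pool.Agent.H228.HP.s_ne htr)
    (Pool.Agent.H228.HP.eD_ne htr) ((S.isZetaNum_iff P).1 hP) hr hm

theorem zeroSum_zero {k K : Type} [Field k] [Field K] [Algebra k K] {f : K}
    (h : ∀ v : Place k K, 0 < v.ord f → ¬ 4 ∣ S.deg v) : zeroSum k f = 0 := by
  unfold zeroSum
  apply finsum_eq_zero_of_forall_eq_zero
  intro v
  rw [if_neg (fun h1 => h v h1.1 h1.2)]

theorem orderZero {k K : Type} [Field k] [Finite k] [Field K] [Algebra k K] (h6 : (6 : k) ≠ 0)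
    (hq : Nat.card k % 3 = 1) {a b : k} (h : IsBase k a b) {s : K} (hG : Good k K a b s) :
    OrderZero k (A a b s) (B a b s) := by
  haveI : FF.IsFF k K := ⟨hG.curve.essFiniteType, hG.curve.trdeg_eq_one⟩
  obtain ⟨P, hP, -⟩ := exists_num_rel k K
  have hP' := (S.isZetaNum_iff P).2 hP
  have hm0 : Pool.Agent.H228.HP.mulI P = 0 :=
    (Pool.Agent.H228.HP.mulI_zero_iff P).2 (hG.numerator P hP')
  have hr : constDeg k K = 1 := Pool.Agent.TH958.T4.constDeg_eq_one hG.curve.algClosed
  have htr := Pool.Agent.TH180.R2.transc hr hG.nonconst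
  have hw : ∑ᶠ v : Place k K, wI k (eD k a b s) v = 0 := by
    rw [← zeroSum_eq, eD_eq]
    exact zeroSum_zero hG.zeros
  have hV : ∀ (m : ℕ) (G : ℤ[X]), S.Lfun k (A a b s) (B a b s) =
      (((1 - C (Nat.card k : ℤ) * X) ^ m * G : ℤ[X]) : PowerSeries ℤ) →
      m = 0 ∧ (G.map (Int.castRingHom ℚ)).eval ((Nat.card k : ℕ) : ℚ)⁻¹ ≠ 0 ∧
        padicValRat 3 ((G.map (Int.castRingHom ℚ)).eval ((Nat.card k : ℕ) : ℚ)⁻¹) = 0 := by
    intro m G hL
    rw [← eA_eq, ← eB_eq] at hL
    exact Pool.Agent.H228.HP.order_val (cst h6 hq h) (Pool.Agent.H228.HP.s_ne htr)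
      (Pool.Agent.H228.HP.eD_ne htr) hP hr hm0 hw hL
  have hU : ∀ m : ℕ, S.VanishesTo k (A a b s) (B a b s) m → m ≤ 0 := by
    rintro m ⟨G, hL⟩
    exact (hV m G hL).1.le
  refine ⟨hV, fun r hr => ?_⟩
  obtain ⟨h1, h2⟩ := Pool.Agent.TH180.R4.concl4 (R := 0) (by rw [Nat.cast_zero]; exact zero_le) hU
    r hr
  refine ⟨Nat.le_zero.1 h1, fun h3 => ?_⟩
  have := (h2 h3).2
  rw [this, Nat.cast_zero]

theorem nonconst_up {k K L : Type} [Field k] [Field K] [Algebra k K] [Field L] [Algebra k L]
    [Algebra K L] [IsScalarTower k K L] {s : K} (hs : ∀ c : k, s ≠ algebraMap k K c) (c : k) :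
    algebraMap K L s ≠ algebraMap k L c := by
  intro h
  apply hs c
  apply (algebraMap K L).injective
  rw [h, IsScalarTower.algebraMap_apply k K L]

theorem num_one {k : Type} [Field k] [Finite k] {P : ℤ[X]} (hP : S.IsZetaNum k (RatFunc k) P) :
    P = 1 := by
  have h1 := Pool.Agent.W309.RF.isZetaNum_rat (k := k)
  haveI : FF.IsFF k (RatFunc k) := ⟨Pool.Agent.TH958.T4.isCurveField_rat.essFiniteType,
    Pool.Agent.TH958.T4.isCurveField_rat.trdeg_eq_one⟩
  unfold S.IsZetaNum at hP h1
  rw [← h1] at hP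
  set E := eulerProd (fun v : FF.Place k (RatFunc k) => S.deg v)
    (fun v => (1 - PowerSeries.X ^ S.deg v : PowerSeries ℤ)) with hE
  have hE0 : E ≠ 0 := by
    intro h
    rw [h, mul_zero] at h1
    have h2 := congrArg (PowerSeries.constantCoeff (R := ℤ)) h1
    have h3 := (constDeg_pos k (RatFunc k)).ne'
    simp [h3] at h2
  have h2 := mul_right_cancel₀ hE0 hP
  exact Polynomial.coe_injective ℤ h2

theorem not_dvd_one : ¬ (X ^ 2 + 1 : (ZMod 3)[X]) ∣ (1 : ℤ[X]).map (Int.castRingHom (ZMod 3)) := by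
  rw [Polynomial.map_one]
  intro h
  have h1 := natDegree_le_of_dvd h one_ne_zero
  have h2 : (X ^ 2 + 1 : (ZMod 3)[X]).natDegree = 2 := by
    have : (X ^ 2 + 1 : (ZMod 3)[X]) = X ^ 2 + C 1 := by rw [C_1]
    rw [this]
    exact natDegree_X_pow_add_C
  rw [h2, natDegree_one] at h1
  omega

theorem D_up {k K L : Type} [Field k] [Finite k] [Field K] [Algebra k K] [FF.IsFF k K] [Field L]
    [Algebra k L] [Algebra K L] [IsScalarTower k K L] [FF.IsFF k L] [FiniteDimensional K L]
    [IsGalois K L] (hodd : Odd (finrank K L)) (a b : k) (s : K)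
    (h : ∀ v : Place k K, 0 < v.ord (D a b s) → ¬ 4 ∣ S.deg v) (w : Place k L)
    (hw : 0 < w.ord (D a b (algebraMap K L s))) : ¬ 4 ∣ S.deg w := by
  rw [← eD_eq, Pool.Agent.H228.HP.eD_map] at hw
  have h1 := Pool.Agent.H228.HP.odd_zero (k := k) (K := K) (L := L) hodd
    (D := Pool.Agent.H228.HP.eD k a b s) (by rw [eD_eq]; exact h)
  exact Pool.Agent.H228.HP.sum_zero_imp h1 w hw

end proof

/-- Let `k` be a finite field with `q` elements, of characteristic at least five, `q` congruent to `1`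
modulo three. There are elliptic curves `E_0 : y ^ 2 = x ^ 3 + a x + b` over `k` with trace divisible by
three; let `E_0` be one of them.

(1) Let `K` be the function field of a curve over `k`, `P` the numerator of its zeta function and `s` in
`K` not in `k`. The curve `E_s : y ^ 2 = x ^ 3 + A x + B`, where `A = a - 18 b s - 18 a ^ 2 s ^ 2 +
54 a b s ^ 3 - 27 (a ^ 3 + 9 b ^ 2) s ^ 4` and `B = b + 4 a ^ 2 s - 45 a b s ^ 2 + 270 b ^ 2 s ^ 3 +
135 a ^ 2 b s ^ 4 + (486 a b ^ 2 + 108 a ^ 4) s ^ 5 - (1458 b ^ 3 + 243 a ^ 3 b) s ^ 6`, has a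
non-constant `j`-invariant, and its `L`-function vanishes at `1 / q` to order at most `2 μ + N`, where
`μ` is the multiplicity of `X ^ 2 + 1` in `P` modulo three and `N` is the number of the zeros of
`D = 1 + 18 a s ^ 2 - 108 b s ^ 3 - 27 a ^ 2 s ^ 4` of degree divisible by four, a place `v` counted with
weight `3 ^ v₃(deg v)`.

(2) Call `(K, s)` good if `X ^ 2 + 1` does not divide `P` modulo three and no zero of `D` has degree
divisible by four. If `(K, s)` is good, the order of vanishing of `L(T, E_s / K)` at `1 / q` is zero,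
`L(1 / q, E_s / K)` is a unit at three, and the rank is zero if it is at most the order. If `(K, s)` is good and `L` is a Galois extension of `K` with
field of constants `k`, then `(L, s)` is good in the following cases: the degree is a power of three and
`L` is unramified outside a finite set of places of `K` of degree not divisible by four; the degree is odd
and `X ^ 2 + 1` does not divide the numerator of the zeta function of `L` modulo three.

(3) `(k(t), t)` is good, and for all primes `l ≠ 2` which divide `q - 1` there is `c` in `k`, not zero,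
such that `(k(t), c t ^ (l ^ j))` is good for all `j`. -/
theorem result (k : Type) [Field k] [Finite k] (h6 : (6 : k) ≠ 0) (hq : Nat.card k % 3 = 1) :
    (∃ a b : k, IsBase k a b) ∧ ∀ a b : k, IsBase k a b →
      (∀ (K : Type) [Field K] [Algebra k K], IsCurveField k K → ∀ s : K,
        (∀ c : k, s ≠ algebraMap k K c) → NonIsotrivial k (A a b s) (B a b s) ∧
          ∀ P : ℤ[X], S.IsZetaNum k K P → ∀ m : ℕ, S.VanishesTo k (A a b s) (B a b s) m →
            m ≤ 2 * mult P + zeroSum k (D a b s)) ∧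
      (∀ (K : Type) [Field K] [Algebra k K] (s : K), Good k K a b s →
        OrderZero k (A a b s) (B a b s) ∧
        ∀ (L : Type) [Field L] [Algebra k L] [Algebra K L] [IsScalarTower k K L]
          [FiniteDimensional K L] [IsGalois K L], IsCurveField k L →
          (∀ (n : ℕ) (T : Finset (Place k K)), finrank K L = 3 ^ n → (∀ v ∈ T, ¬ 4 ∣ S.deg v) →
            (∀ (v : Place k K) (w : Place k L) (e : ℕ), v ∉ T → LiesOver w v e → e = 1) →
            Good k L a b (algebraMap K L s)) ∧
          (Odd (finrank K L) → (∀ P : ℤ[X], S.IsZetaNum k L P →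
            ¬ (X ^ 2 + 1 : (ZMod 3)[X]) ∣ P.map (Int.castRingHom (ZMod 3))) →
            Good k L a b (algebraMap K L s))) ∧
      Good k (RatFunc k) a b (algebraMap k[X] (RatFunc k) X) ∧
      ∀ l : ℕ, l.Prime → l ≠ 2 → l ∣ Nat.card k - 1 → ∃ c : k, c ≠ 0 ∧ ∀ j : ℕ,
        Good k (RatFunc k) a b (algebraMap k[X] (RatFunc k) (C c * X ^ l ^ j)) := by
  classical
  letI : Fintype k := Fintype.ofFinite k
  obtain ⟨h2, h3⟩ := two_three h6
  have hdv := dvd_of_mod hq
  have hrat : ∀ (a b : k) (f : k[X]), 0 < f.natDegree →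
      ∑ᶠ v : Place k (RatFunc k), Pool.Agent.H228.HP.wI k
        (Pool.Agent.H228.HP.eD k a b (Pool.Agent.W309.RF.A f)) v = 0 →
      Good k (RatFunc k) a b (algebraMap k[X] (RatFunc k) f) := by
    intro a b f hf h0
    haveI : FF.IsFF k (RatFunc k) := ⟨Pool.Agent.TH958.T4.isCurveField_rat.essFiniteType,
      Pool.Agent.TH958.T4.isCurveField_rat.trdeg_eq_one⟩
    refine ⟨Pool.Agent.TH958.T4.isCurveField_rat, ?_, ?_, ?_⟩
    · intro c hz
      have h1 : f = C c := RatFunc.algebraMap_injective k hz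
      rw [h1, natDegree_C] at hf
      exact lt_irrefl _ hf
    · intro P hP
      rw [num_one hP]
      exact not_dvd_one
    · intro v hv
      rw [← eD_eq] at hv
      exact Pool.Agent.H228.HP.sum_zero_imp h0 v hv
  refine ⟨?_, fun a b h => ⟨?_, ?_, ?_, ?_⟩⟩
  · obtain ⟨a, b, h4, h5⟩ := Pool.Agent.H228.HP.exists_tr h2 h3 hdv
    exact ⟨a, b, h4, h5⟩
  · intro K _ _ hK s hs
    haveI : FF.IsFF k K := ⟨hK.essFiniteType, hK.trdeg_eq_one⟩
    have hr : constDeg k K = 1 := Pool.Agent.TH958.T4.constDeg_eq_one hK.algClosed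
    have htr := Pool.Agent.TH180.R2.transc hr hs
    have hC := cst h6 hq h
    have hΔ := Pool.Agent.H228.HP.ab_ne hC (Pool.Agent.H228.HP.eD_ne (a := a) (b := b) htr)
    rw [eA_eq, eB_eq] at hΔ
    refine ⟨⟨hΔ, fun c hc => ?_⟩, fun P hP m hm => bound h6 hq h hK hs hP hm⟩
    have h7 := Pool.Agent.H228.HP.noniso hC htr c
    rw [eA_eq, eB_eq] at h7
    exact h7 ((div_eq_iff hΔ).1 hc)
  · intro K _ _ s hG
    haveI : FF.IsFF k K := ⟨hG.curve.essFiniteType, hG.curve.trdeg_eq_one⟩
    refine ⟨orderZero h6 hq h hG, ?_⟩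
    intro L _ _ _ _ _ _ hL
    haveI : FF.IsFF k L := ⟨hL.essFiniteType, hL.trdeg_eq_one⟩
    have hrK : constDeg k K = 1 := Pool.Agent.TH958.T4.constDeg_eq_one hG.curve.algClosed
    have hrL : constDeg k L = 1 := Pool.Agent.TH958.T4.constDeg_eq_one hL.algClosed
    refine ⟨?_, ?_⟩
    · intro n T hn hT hun
      refine ⟨hL, nonconst_up hG.nonconst, ?_, ?_⟩
      · intro P' hP'
        obtain ⟨P, hP, -⟩ := exists_num_rel k K
        have hm0 : Pool.Agent.H228.HP.mulI P = 0 := (Pool.Agent.H228.HP.mulI_zero_iff P).2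
          (hG.numerator P ((S.isZetaNum_iff P).2 hP))
        rw [← Pool.Agent.H228.HP.mulI_zero_iff]
        exact Pool.Agent.H228.HP.mulI_tower (K := K) (L := L) hP hrK
          ((S.isZetaNum_iff P').1 hP') hrL hdv hn T (fun v w e ho hv => hun v w e hv ho)
          (fun v hv => by rw [← S.deg_eq]; exact hT v hv) hm0
      · exact D_up (by rw [hn]; exact (by decide : Odd 3).pow) a b s hG.zeros
    · intro hodd hnum
      exact ⟨hL, nonconst_up hG.nonconst, hnum, D_up hodd a b s hG.zeros⟩
  · exact hrat a b X (by rw [natDegree_X]; exact one_pos)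
      (Pool.Agent.H228.HP.base_zero (cst h6 hq h))
  · intro l hl hl2 hld
    obtain ⟨c, hc, hj⟩ := Pool.Agent.H228.HP.exists_binom (cst h6 hq h) hl hl2 hld
    refine ⟨c, hc, fun j => hrat a b _ ?_ (hj j)⟩
    rw [natDegree_C_mul_X_pow _ _ hc]
    exact pow_pos hl.pos j

end Pool.Agent.Results.MP_48b749_nt.HessePencils
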